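import Mathlib
import Pool.Agent.LGO.ZF.Defs
import Pool.Agent.LGO.ZF.Pair
import Pool.Agent.LGO.PWG.Types

/-!
# LGO/ZG: Theorem Z (MP_d83ecd_ag), definitions

`Rat0 A B`: the rational functions `A i / B i` are in lowest terms and nonconstant.  `Sim A B a b`: the functions
`a` and `b` have the same degree and the same poles on the projective line.
`HB i C x`: all coordinates of `x` have height at most `(C D) ^ C` over a field of degree at most `C D`, for every field
of degree `D` which contains the coordinates `x (i a)`.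
-/

namespace Pool.Agent.LGO.ZG

open Polynomial UpperHalfPlane Pool.Agent.Hhelper14.ZP Pool.Agent.Hhelper14.ZPL Pool.Agent.LGO
  Pool.Agent.LGO.U

variable {n : ℕ}

/-- the rational functions `A i / B i` are in lowest terms and nonconstant -/
structure Rat0 (A B : Fin n → Polynomial Qb) : Prop where
  ne : ∀ i, B i ≠ 0
  cop : ∀ i, IsCoprime (A i) (B i)
  nc : ∀ i, 0 < max (A i).natDegree (B i).natDegree

/-- the same degree and the same poles -/
def Sim (A B : Fin n → Polynomial Qb) (a b : Fin n) : Prop :=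
  rdeg (A a) (B a) = rdeg (A b) (B b) ∧ (∀ z : Qb, (B a).eval z = 0 ↔ (B b).eval z = 0) ∧
    ((B a).natDegree < (A a).natDegree ↔ (B b).natDegree < (A b).natDegree)

/-- the pair theorem for pairs which are not similar, with a pole of the first function at infinity -/
def PairAll : Prop := ∀ Aa Ba Ab Bb : Polynomial Qb, IsCoprime Aa Ba → IsCoprime Ab Bb →
  Ba.natDegree < Aa.natDegree → 1 ≤ rdeg Ab Bb →
  (Ab.natDegree ≤ Bb.natDegree ∨ rdeg Aa Ba ≠ rdeg Ab Bb) → ZF.PairThm Aa Ba Ab Bb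

/-- singular moduli have small height -/
def CMAll : Prop := ∃ C : ℕ, ∀ (K : IntermediateField ℚ ℂ) [FiniteDimensional ℚ K] (x : ℂ),
  x ∈ K → IsCMVal x → Bd K (((C : ℝ) * Module.finrank ℚ K) ^ C) x

/-- all coordinates have small height -/
def HB {mm : ℕ} (i : Fin mm → Fin n) (C : ℕ) (x : Fin n → ℂ) : Prop :=
  ∀ (K : IntermediateField ℚ ℂ) [FiniteDimensional ℚ K], (∀ a, x (i a) ∈ K) →
    ∃ K' : IntermediateField ℚ ℂ, K ≤ K' ∧ FiniteDimensional ℚ K' ∧
      (Module.finrank ℚ K' : ℝ) ≤ C * Module.finrank ℚ K ∧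
      ∀ k, Bd K' (((C : ℝ) * Module.finrank ℚ K) ^ C) (x k)

/-- large Galois orbits imply finiteness, for the condition `Q` and points of `W` -/
def FinAbs {mm : ℕ} (Q : ℝ → (Fin mm → ℂ) → Prop) (W : Set (Fin mm → ℂ)) : Prop :=
  ∀ (k₀ : IntermediateField ℚ ℂ) [FiniteDimensional ℚ k₀],
    (∀ s : ℂ ≃+* ℂ, (∀ z ∈ k₀, s z = z) → ∀ y ∈ W, (fun a => s (y a)) ∈ W) →
    ∀ (T : Set (Fin mm → ℂ)), T ⊆ W → ∀ (C : ℕ), (∀ y ∈ T, ∀ a, IsAlgebraic ℚ (y a)) →
    (∀ y ∈ T, ∀ s : ℂ ≃+* ℂ,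
      Q (((C : ℝ) * Module.finrank ℚ (IntermediateField.adjoin ℚ (Set.range y))) ^ C + 2)
        (fun a => s (y a)) ∧
      ∀ a, ‖s (y a)‖ ≤
        Real.exp (((C : ℝ) * Module.finrank ℚ (IntermediateField.adjoin ℚ (Set.range y))) ^ C + 2)) →
    T.Finite

end Pool.Agent.LGO.ZG
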