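import Mathlib
import Pool.Agent.LGO.ZG.Defs
import Pool.Agent.LGO.ZF.CurA
import Pool.Agent.LGO.ZF.CurC
import Pool.Agent.Hhelper14.ZPL.Proj
import Pool.Agent.Hhelper14.ZPL.Dim
import Pool.Agent.Hhelper14.ZP.Gen

/-!
# LGO/ZG: the closure of a rational curve, for any nonconstant rational functions

`curve_nc`, `curve_dim`, `curve_par`: copies of the proofs in LGO/ZF/CurA, CurB, CurC (these proofs do not use that
there are no common poles).
-/

namespace Pool.Agent.LGO.ZG

open Polynomial Pool.Agent.Hhelper14.ZP Pool.Agent.Hhelper14.ZPL Pool.Agent.LGO.ZF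

variable {n : ℕ} {A B : Fin n → Polynomial Qb}

private theorem Cur_inf (hB : ∀ i, B i ≠ 0) : {t : ℂ | ∃ i, (aeval t (B i) : ℂ) = 0}ᶜ.Infinite :=
  (finite_poles hB).infinite_compl

theorem rat_nc (h : Rat0 A B) (i : Fin n) (c : ℂ) : ∃ x ∈ curve A B, x i ≠ c := by
  by_contra hc
  push Not at hc
  have h1 : (A i).map (algebraMap Qb ℂ) - C c * (B i).map (algebraMap Qb ℂ) = 0 := by
    by_contra hne
    refine Cur_inf h.ne ((Polynomial.rootSet_finite
      ((A i).map (algebraMap Qb ℂ) - C c * (B i).map (algebraMap Qb ℂ)) ℂ).subset ?_)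
    intro t ht
    have ht' : ∀ i, (aeval t (B i) : ℂ) ≠ 0 := fun i hi => ht ⟨i, hi⟩
    refine mem_rootSet.2 ⟨hne, ?_⟩
    have h2 := hc (fun i => (aeval t (A i) / aeval t (B i) : ℂ)) (img_subset ⟨t, fun i => ⟨ht' i, rfl⟩⟩)
    have h3 : (aeval t (A i) : ℂ) = c * aeval t (B i) := by
      rw [← h2]
      exact (div_mul_cancel₀ _ (ht' i)).symm
    rw [coe_aeval_eq_eval, eval_sub, eval_mul, eval_C, eval_map_algebraMap, eval_map_algebraMap, h3, sub_self]
  have h2 : (A i).map (algebraMap Qb ℂ) = C c * (B i).map (algebraMap Qb ℂ) := sub_eq_zero.1 h1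
  have h3 : IsCoprime ((A i).map (algebraMap Qb ℂ)) ((B i).map (algebraMap Qb ℂ)) :=
    (h.cop i).map (Polynomial.mapRingHom (algebraMap Qb ℂ))
  have h4 : IsUnit ((B i).map (algebraMap Qb ℂ)) := by
    refine h3.isUnit_of_dvd' ?_ dvd_rfl
    rw [h2]
    exact dvd_mul_left _ _
  have h5 : (B i).natDegree = 0 := by
    have := natDegree_eq_zero_of_isUnit h4
    rwa [natDegree_map] at this
  have h6 : (A i).natDegree = 0 := by
    have h7 : ((A i).map (algebraMap Qb ℂ)).natDegree ≤ ((B i).map (algebraMap Qb ℂ)).natDegree := by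
      rw [h2]
      exact natDegree_C_mul_le _ _
    rw [natDegree_map, natDegree_map, h5] at h7
    omega
  have h8 := h.nc i
  rw [h5, h6] at h8
  simp at h8

/-- two coordinates are algebraically dependent -/
private lemma Cur_dep (A B : Fin n → Polynomial Qb) (a b : Fin n) :
    ∃ (N : ℕ) (c : Fin (N + 1) × Fin (N + 1) → Qb), c ≠ 0 ∧
      ∀ t : ℂ, (∀ i, (aeval t (B i) : ℂ) ≠ 0) →
        ∑ kl, ((c kl : Qb) : ℂ) * ((aeval t (A a) / aeval t (B a) : ℂ) ^ (kl.1 : ℕ) *
          (aeval t (A b) / aeval t (B b) : ℂ) ^ (kl.2 : ℕ)) = 0 := by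
  obtain ⟨D, hD0, h1, h2, h3, h4⟩ : ∃ D : ℕ, 0 < D ∧ (A a).natDegree ≤ D ∧ (B a).natDegree ≤ D ∧
      (A b).natDegree ≤ D ∧ (B b).natDegree ≤ D :=
    ⟨(A a).natDegree + (B a).natDegree + (A b).natDegree + (B b).natDegree + 1, by omega,
      by omega, by omega, by omega, by omega⟩
  let N := 2 * D
  let M := 2 * N * D + 1
  let P : Fin (N + 1) × Fin (N + 1) → Polynomial Qb := fun kl =>
    A a ^ (kl.1 : ℕ) * B a ^ (N - kl.1) * (A b ^ (kl.2 : ℕ) * B b ^ (N - kl.2))
  have hpair : ∀ (p q : Polynomial Qb) (k : Fin (N + 1)), p.natDegree ≤ D → q.natDegree ≤ D →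
      (p ^ (k : ℕ) * q ^ (N - k)).natDegree ≤ N * D := by
    intro p q k hp hq
    have hk : (k : ℕ) ≤ N := Nat.lt_succ_iff.mp k.2
    calc (p ^ (k : ℕ) * q ^ (N - k)).natDegree
        ≤ (p ^ (k : ℕ)).natDegree + (q ^ (N - k)).natDegree := natDegree_mul_le
      _ ≤ k * D + (N - k) * D := by
          apply Nat.add_le_add
          · exact (natDegree_pow_le).trans (Nat.mul_le_mul_left _ hp)
          · exact (natDegree_pow_le).trans (Nat.mul_le_mul_left _ hq)
      _ = N * D := by rw [← Nat.add_mul, Nat.add_sub_cancel' hk]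
  have hP : ∀ kl, P kl ∈ degreeLT Qb M := by
    intro kl
    rw [mem_degreeLT]
    have hle : (P kl).natDegree ≤ 2 * N * D := by
      calc (P kl).natDegree ≤ N * D + N * D :=
            (natDegree_mul_le).trans (Nat.add_le_add (hpair _ _ _ h1 h2) (hpair _ _ _ h3 h4))
        _ = 2 * N * D := by ring
    refine lt_of_le_of_lt degree_le_natDegree ?_
    have : (P kl).natDegree < M := by
      simp only [M]
      omega
    exact_mod_cast this
  let f : (Fin (N + 1) × Fin (N + 1) → Qb) →ₗ[Qb] degreeLT Qb M :=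
    Fintype.linearCombination Qb (fun kl => (⟨P kl, hP kl⟩ : degreeLT Qb M))
  have hfin : Module.finrank Qb (degreeLT Qb M) <
      Module.finrank Qb (Fin (N + 1) × Fin (N + 1) → Qb) := by
    rw [Module.finrank_fintype_fun_eq_card, (degreeLTEquiv Qb M).finrank_eq, Module.finrank_fin_fun,
      Fintype.card_prod, Fintype.card_fin]
    simp only [M, N]
    nlinarith
  have hfd : Module.Finite Qb (degreeLT Qb M) :=
    Module.Finite.equiv (degreeLTEquiv Qb M).symm
  have hker := LinearMap.ker_ne_bot_of_finrank_lt (f := f) hfin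
  obtain ⟨c, hc, hc0⟩ := Submodule.exists_mem_ne_zero_of_ne_bot hker
  refine ⟨N, c, hc0, fun t ht => ?_⟩
  have hsum : ∑ kl, c kl • P kl = 0 := by
    have h5 : f c = 0 := hc
    have h6 := congrArg (Subtype.val) h5
    simpa [f, Fintype.linearCombination_apply] using h6
  have hev := congrArg (aeval t : Polynomial Qb → ℂ) hsum
  rw [map_sum, map_zero] at hev
  have hBa := ht a
  have hBb := ht b
  have key : ∀ kl : Fin (N + 1) × Fin (N + 1),
      ((c kl : Qb) : ℂ) * ((aeval t (A a) / aeval t (B a) : ℂ) ^ (kl.1 : ℕ) *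
          (aeval t (A b) / aeval t (B b) : ℂ) ^ (kl.2 : ℕ)) =
        (aeval t (c kl • P kl) : ℂ) * ((aeval t (B a) : ℂ) ^ N * (aeval t (B b) : ℂ) ^ N)⁻¹ := by
    intro kl
    have hk : (kl.1 : ℕ) ≤ N := Nat.lt_succ_iff.mp kl.1.2
    have hl : (kl.2 : ℕ) ≤ N := Nat.lt_succ_iff.mp kl.2.2
    have e1 : (aeval t (B a) : ℂ) ^ N = (aeval t (B a) : ℂ) ^ (kl.1 : ℕ) *
        (aeval t (B a) : ℂ) ^ (N - kl.1) := by rw [← pow_add, Nat.add_sub_cancel' hk]
    have e2 : (aeval t (B b) : ℂ) ^ N = (aeval t (B b) : ℂ) ^ (kl.2 : ℕ) *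
        (aeval t (B b) : ℂ) ^ (N - kl.2) := by rw [← pow_add, Nat.add_sub_cancel' hl]
    rw [e1, e2, map_smul]
    simp only [P, map_mul, map_pow, Algebra.smul_def]
    have e3 : (algebraMap Qb ℂ) (c kl) = ((c kl : Qb) : ℂ) := rfl
    rw [e3, div_pow, div_pow]
    field_simp
  rw [Finset.sum_congr rfl fun kl _ => key kl, ← Finset.sum_mul, hev, zero_mul]

theorem rat_dim (h : Rat0 A B) (hn : 0 < n) : Pool.Agent.Hhelper14.ZPL.dim (curve A B) = 1 := by
  have hirr := curve_irred (A := A) h.ne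
  obtain ⟨x, hx, -⟩ := rat_nc h ⟨0, hn⟩ 0
  obtain ⟨y, hy, hyx⟩ := rat_nc h ⟨0, hn⟩ (x ⟨0, hn⟩)
  have hge : 1 ≤ Pool.Agent.Hhelper14.ZPL.dim (curve A B) := one_le_dim hirr hx hy (fun e => hyx (by rw [e]))
  refine le_antisymm ?_ hge
  have hp := hirr.1
  obtain ⟨I, hI⟩ := exists_basis (MvPolynomial.vanishingIdeal ℂ (curve A B))
  have hcard : I.card ≤ 1 := by
    rw [Finset.card_le_one]
    intro a ha b hb
    by_contra hab
    obtain ⟨N, c, hc, hrel⟩ := Cur_dep A B a b
    -- the relation as a polynomial in two variables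
    let mon : Fin (N + 1) × Fin (N + 1) → (Fin 2 →₀ ℕ) := fun kl =>
      Finsupp.single 0 (kl.1 : ℕ) + Finsupp.single 1 (kl.2 : ℕ)
    have hmon : Function.Injective mon := by
      intro u v huv
      have h0 := DFunLike.congr_fun huv 0
      have h1 := DFunLike.congr_fun huv 1
      simp [mon] at h0 h1
      exact Prod.ext (Fin.ext h0) (Fin.ext h1)
    let q : MvPolynomial (Fin 2) ℂ := ∑ kl, MvPolynomial.monomial (mon kl) ((c kl : Qb) : ℂ)
    have hevq : ∀ {R : Type} [CommRing R] [Algebra ℂ R] (z : Fin 2 → R),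
        MvPolynomial.aeval z q = ∑ kl, algebraMap ℂ R ((c kl : Qb) : ℂ) *
          (z 0 ^ (kl.1 : ℕ) * z 1 ^ (kl.2 : ℕ)) := by
      intro R _ _ z
      simp only [q, map_sum]
      refine Finset.sum_congr rfl fun kl _ => ?_
      rw [MvPolynomial.aeval_monomial]
      congr 1
      simp only [mon]
      rw [Finsupp.prod_add_index' (fun _ => pow_zero _) (fun _ _ _ => pow_add _ _ _)]
      have e1 : (Finsupp.single (0 : Fin 2) (kl.1 : ℕ)).prod (fun i e => z i ^ e) =
          z 0 ^ (kl.1 : ℕ) := Finsupp.prod_single_index (pow_zero _)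
      have e2 : (Finsupp.single (1 : Fin 2) (kl.2 : ℕ)).prod (fun i e => z i ^ e) =
          z 1 ^ (kl.2 : ℕ) := Finsupp.prod_single_index (pow_zero _)
      exact congrArg₂ (· * ·) e1 e2
    let g : Fin 2 → I := ![⟨a, ha⟩, ⟨b, hb⟩]
    have hg : Function.Injective g := by
      intro i j hij
      fin_cases i <;> fin_cases j
      · rfl
      · exact absurd (congrArg Subtype.val hij) hab
      · exact absurd (congrArg Subtype.val hij).symm hab
      · rfl
    have hind := hI.1.comp g hg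
    have hq0 : q = 0 := by
      apply (algebraicIndependent_iff.mp hind) q
      rw [hevq]
      -- the polynomial in `n` variables
      let p : MvPolynomial (Fin n) ℂ := ∑ kl, MvPolynomial.C ((c kl : Qb) : ℂ) *
        (MvPolynomial.X a ^ (kl.1 : ℕ) * MvPolynomial.X b ^ (kl.2 : ℕ))
      have hp0 : p ∈ MvPolynomial.vanishingIdeal ℂ (img A B) := by
        rw [MvPolynomial.mem_vanishingIdeal_iff]
        rintro z ⟨t, ht⟩
        have h5 := hrel t (fun i => (ht i).1)
        simp only [p, map_sum, map_mul, map_pow, MvPolynomial.aeval_X, MvPolynomial.aeval_C]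
        rw [(ht a).2, (ht b).2]
        exact h5
      have hp1 : p ∈ MvPolynomial.vanishingIdeal ℂ (curve A B) := by
        rw [MvPolynomial.mem_vanishingIdeal_iff]
        intro z hz
        exact (MvPolynomial.mem_zeroLocus_iff.mp hz) p hp0
      have h6 := Ideal.Quotient.eq_zero_iff_mem.mpr hp1
      rw [← h6]
      simp only [p, map_sum, map_mul, map_pow]
      rfl
    apply hc
    funext kl
    have h7 := congrArg (MvPolynomial.coeff (mon kl)) hq0
    simp only [q, MvPolynomial.coeff_sum, MvPolynomial.coeff_monomial, MvPolynomial.coeff_zero] at h7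
    rw [Finset.sum_eq_single kl (fun v _ hv => if_neg fun e => hv (hmon e))
      (fun hkl => absurd (Finset.mem_univ _) hkl), if_pos rfl] at h7
    exact Subtype.ext h7
  have hk := krull_eq_card hI
  change ringKrullDim (MvPolynomial (Fin n) ℂ ⧸ MvPolynomial.vanishingIdeal ℂ (curve A B)) ≤ 1
  rw [hk, Nat.card_eq_fintype_card, Fintype.card_coe]
  exact_mod_cast hcard

theorem rat_par_aux (h : Rat0 A B) (i₀ : Fin n) {x : Fin n → ℂ} (hx : x ∈ curve A B)
    (hlc : algebraMap Qb ℂ ((A i₀).coeff (max (A i₀).natDegree (B i₀).natDegree)) ≠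
      x i₀ * algebraMap Qb ℂ ((B i₀).coeff (max (A i₀).natDegree (B i₀).natDegree))) :
    ∃ t : ℂ, ∀ i, (aeval t (B i) : ℂ) ≠ 0 ∧ x i * aeval t (B i) = aeval t (A i) := by
  classical
  set D := max (A i₀).natDegree (B i₀).natDegree with hD
  set a : Fin n → Polynomial ℂ := fun i => (A i).map (algebraMap Qb ℂ) with ha
  set b : Fin n → Polynomial ℂ := fun i => (B i).map (algebraMap Qb ℂ) with hb
  have haev : ∀ i (t : ℂ), (a i).eval t = aeval t (A i) := fun i t => by
    rw [ha, eval_map_algebraMap]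
  have hbev : ∀ i (t : ℂ), (b i).eval t = aeval t (B i) := fun i t => by
    rw [hb, eval_map_algebraMap]
  rcases common_root_or (fun i => a i - C (x i) * b i) with ⟨t, ht⟩ | ⟨g, hg⟩
  · refine ⟨t, fun i => ?_⟩
    have h1 : x i * aeval t (B i) = (aeval t (A i) : ℂ) := by
      have := ht i
      simp only [eval_sub, eval_mul, eval_C, haev, hbev] at this
      exact (sub_eq_zero.mp this).symm
    refine ⟨fun h0 => ?_, h1⟩
    rw [h0, mul_zero] at h1
    obtain ⟨u, v, huv⟩ := h.cop i
    have := congrArg (fun p => (aeval t p : ℂ)) huv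
    simp only [map_add, map_mul, map_one, h0, ← h1, mul_zero, add_zero] at this
    exact zero_ne_one this
  · exfalso
    set F : Polynomial (MvPolynomial (Fin n) ℂ) := (a i₀).map MvPolynomial.C -
      C (MvPolynomial.X i₀) * (b i₀).map MvPolynomial.C with hF
    set G : Polynomial (MvPolynomial (Fin n) ℂ) := ∑ i, (g i).map MvPolynomial.C *
      ((a i).map MvPolynomial.C - C (MvPolynomial.X i) * (b i).map MvPolynomial.C) with hG
    set R := resultant F G D G.natDegree with hR
    have hmapC : ∀ (y : Fin n → ℂ) (p : Polynomial ℂ),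
        (p.map (MvPolynomial.C : ℂ →+* MvPolynomial (Fin n) ℂ)).map (MvPolynomial.eval y) = p := by
      intro y p
      rw [map_map]
      have : (MvPolynomial.eval y).comp MvPolynomial.C = RingHom.id ℂ := by
        ext z
        · simp
      rw [this, map_id]
    have hFy : ∀ y : Fin n → ℂ, F.map (MvPolynomial.eval y) = a i₀ - C (y i₀) * b i₀ := by
      intro y
      rw [hF, Polynomial.map_sub, Polynomial.map_mul, map_C, hmapC, hmapC, MvPolynomial.eval_X]
    have hGy : ∀ y : Fin n → ℂ, G.map (MvPolynomial.eval y) =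
        ∑ i, g i * (a i - C (y i) * b i) := by
      intro y
      rw [hG, Polynomial.map_sum]
      refine Finset.sum_congr rfl fun i _ => ?_
      rw [Polynomial.map_mul, Polynomial.map_sub, Polynomial.map_mul, map_C, hmapC, hmapC, hmapC,
        MvPolynomial.eval_X]
    have hRy : ∀ y : Fin n → ℂ, MvPolynomial.eval y R = resultant (a i₀ - C (y i₀) * b i₀)
        (∑ i, g i * (a i - C (y i) * b i)) D G.natDegree := by
      intro y
      rw [hR, ← resultant_map_map, hFy, hGy]
    have hFdeg : ∀ y : Fin n → ℂ, (a i₀ - C (y i₀) * b i₀).natDegree ≤ D := by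
      intro y
      refine (natDegree_sub_le _ _).trans (max_le ?_ ?_)
      · exact natDegree_map_le.trans (le_max_left _ _)
      · exact (natDegree_C_mul_le _ _).trans (natDegree_map_le.trans (le_max_right _ _))
    have hvan : R ∈ MvPolynomial.vanishingIdeal ℂ (img A B) := by
      rw [MvPolynomial.mem_vanishingIdeal_iff]
      rintro y ⟨t, ht⟩
      have hy : ∀ i, (a i - C (y i) * b i).eval t = 0 := by
        intro i
        obtain ⟨h1, h2⟩ := ht i
        rw [eval_sub, eval_mul, eval_C, haev, hbev, h2, div_mul_cancel₀ _ h1, sub_self]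
      have hGdeg : (∑ i, g i * (a i - C (y i) * b i)).natDegree ≤ G.natDegree := by
        rw [← hGy y]
        exact natDegree_map_le
      obtain ⟨p, q, -, -, hpq⟩ := exists_mul_add_mul_eq_C_resultant _ _ (hFdeg y) hGdeg
        (Or.inl (h.nc i₀).ne')
      have h3 := congrArg (fun p => p.eval t) hpq
      simp only [eval_add, eval_mul, eval_C, eval_finsetSum, hy, mul_zero, zero_mul,
        Finset.sum_const_zero, add_zero] at h3
      rw [MvPolynomial.aeval_eq_eval, hRy]
      exact h3.symm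
    have hxR : MvPolynomial.eval x R = 0 := by
      have := hx R hvan
      rwa [MvPolynomial.aeval_eq_eval] at this
    rw [hRy, hg, resultant_one_right] at hxR
    have h5 : (a i₀ - C (x i₀) * b i₀).coeff D = 0 := eq_zero_of_pow_eq_zero hxR
    rw [coeff_sub, coeff_C_mul, ha, hb] at h5
    simp only [coeff_map] at h5
    exact hlc (sub_eq_zero.mp h5)

theorem rat_par (h : Rat0 A B) : ∃ E : Set (Fin n → ℂ), E.Finite ∧ ∀ x ∈ curve A B, x ∉ E →
    ∃ t : ℂ, ∀ i, (aeval t (B i) : ℂ) ≠ 0 ∧ x i * aeval t (B i) = aeval t (A i) := by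
  classical
  rcases Nat.eq_zero_or_pos n with hn | hn
  · subst hn
    exact ⟨∅, Set.finite_empty, fun x _ _ => ⟨0, fun i => i.elim0⟩⟩
  set i₀ : Fin n := ⟨0, hn⟩ with hi₀
  set D := max (A i₀).natDegree (B i₀).natDegree with hD
  set α : ℂ := algebraMap Qb ℂ ((A i₀).coeff D) with hα
  set β : ℂ := algebraMap Qb ℂ ((B i₀).coeff D) with hβ
  set Z : Set (Fin n → ℂ) := MvPolynomial.zeroLocus ℂ
    (Ideal.span {MvPolynomial.C α - MvPolynomial.X i₀ * MvPolynomial.C β}) with hZ
  have hZmem : ∀ y : Fin n → ℂ, y ∈ Z ↔ α = y i₀ * β := by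
    intro y
    rw [hZ, MvPolynomial.zeroLocus_span]
    simp [sub_eq_zero]
  refine ⟨curve A B ∩ Z, ?_, fun x hx hxE => ?_⟩
  · refine finite_inter (curve_irred h.ne) (rat_dim h hn) (closed_zeroLocus _) ?_
    intro hsub
    by_cases hb0 : β = 0
    · obtain ⟨y, hy, -⟩ := rat_nc h i₀ 0
      have h1 := (hZmem y).mp (hsub hy)
      rw [hb0, mul_zero] at h1
      have hβ0 : (B i₀).coeff D = 0 := (map_eq_zero_iff _ (algebraMap Qb ℂ).injective).mp hb0
      have hα0 : (A i₀).coeff D = 0 := (map_eq_zero_iff _ (algebraMap Qb ℂ).injective).mp h1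
      rcases le_total (A i₀).natDegree (B i₀).natDegree with hle | hle
      · rw [hD, max_eq_right hle, coeff_natDegree, leadingCoeff_eq_zero] at hβ0
        exact h.ne i₀ hβ0
      · rw [hD, max_eq_left hle, coeff_natDegree, leadingCoeff_eq_zero] at hα0
        have h2 := h.nc i₀
        rw [max_eq_left hle, hα0, natDegree_zero] at h2
        exact lt_irrefl _ h2
    · obtain ⟨y, hy, hne⟩ := rat_nc h i₀ (α / β)
      have h1 := (hZmem y).mp (hsub hy)
      exact hne (by rw [h1, mul_div_cancel_right₀ _ hb0])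
  · refine rat_par_aux h i₀ hx fun heq => hxE ⟨hx, (hZmem x).mpr heq⟩

end Pool.Agent.LGO.ZG
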