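import Mathlib
import Pool.Agent.LGO.ZF.Defs
import Pool.Agent.Hhelper14.ZPL.Proj
import Pool.Agent.Hhelper14.ZPL.Closed
import Pool.Agent.Hhelper14.ZPL.Hecke2
import Pool.Agent.ZPE.Defs

/-!
# LGO/ZG: modular related coordinates

If two coordinates of the points of `V` are related by a fixed modular correspondence, then `V` is contained in a special
subvariety `T ≠ ℂⁿ`, and `{T}` is a suitable finite set for `FinAtypical V`.
-/

namespace Pool.Agent.LGO.ZG

open UpperHalfPlane Pool.Agent.Hhelper14.ZP Pool.Agent.Hhelper14.ZPL Pool.Agent.ZPE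

theorem fin_of_sub {n : ℕ} {V T : Set (Fin n → ℂ)} (hT : Pool.Agent.Hhelper14.ZPL.IsSpecial T)
    (hne : T ≠ Set.univ) (hVT : V ⊆ T) : FinAtypical V := by
  refine ⟨{T}, Set.finite_singleton _, ?_, ?_⟩
  · intro T' hTT
    rw [Set.mem_singleton_iff] at hTT
    rw [hTT]
    exact ⟨hT, hne⟩
  · intro Z hZ C hC hd
    exact ⟨T, rfl, fun x hx => hVT (hC.2.1 hx).1⟩

theorem sub_of_mod {n : ℕ} {V : Set (Fin n → ℂ)} {a b : Fin n} (hab : a ≠ b) (g : GL (Fin 2) ℚ)
    (hg : 0 < g.det.val) (h : ∀ x ∈ V, ∃ τ : ℍ, x a = jInv τ ∧ x b = jInv (gact g τ)) :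
    ∃ T : Set (Fin n → ℂ), Pool.Agent.Hhelper14.ZPL.IsSpecial T ∧ T ≠ Set.univ ∧ V ⊆ T := by
  classical
  let κ := {i : Fin n // i ≠ b}
  let blk : Fin n → κ := fun i => if h : i = b then ⟨a, hab⟩ else ⟨i, h⟩
  let g' : Fin n → GL (Fin 2) ℚ := fun i => if i = b then g else 1
  let block : Fin n → Option κ := fun i => some (blk i)
  have hb : ∀ k : κ, ∃ i, block i = some k := by
    intro k
    refine ⟨k.1, ?_⟩
    simp only [block, blk, dif_neg k.2]
    rfl
  have hg' : ∀ i, 0 < (g' i).det.val := by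
    intro i
    by_cases hi : i = b
    · simp only [g', if_pos hi]
      exact hg
    · simp only [g', if_neg hi, map_one, Units.val_one]
      exact one_pos
  have hs : ∀ i, block i = none → IsCM ((fun _ => UpperHalfPlane.I) i : ℍ) := fun i hi => by
    simp [block] at hi
  obtain ⟨block', h1, h2, h3⟩ := isSpecial_mk (s := fun _ => UpperHalfPlane.I) hb hg' hs
  refine ⟨SpSet block g' (fun _ => UpperHalfPlane.I), ?_, ?_, ?_⟩
  · rw [isSpecial_iff]
    exact ⟨_, block', g', _, h1, hg', h2, h3⟩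
  · intro hu
    have h4 := dim_spSet (s := fun _ => UpperHalfPlane.I) hb hg'
    rw [hu, dim_univ, Fintype.card_fin] at h4
    have h5 : n = Fintype.card κ := by exact_mod_cast h4
    have h6 : Fintype.card κ < Fintype.card (Fin n) := Fintype.card_subtype_lt (x := b) (by simp)
    rw [Fintype.card_fin] at h6
    omega
  · intro x hx
    obtain ⟨τ, hτa, hτb⟩ := h x hx
    choose σ hσ using fun i => j_surj (x i)
    refine ⟨fun k => if k.1 = a then τ else σ k.1, fun i => ?_⟩
    change x i = jInv (gact (g' i) ((fun k : κ => if k.1 = a then τ else σ k.1) (blk i)))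
    by_cases hi : i = b
    · subst hi
      simp only [g', blk, if_pos rfl, dif_pos rfl]
      exact hτb
    · simp only [g', blk, if_neg hi, dif_neg hi, gact_one]
      by_cases hia : i = a
      · subst hia
        simp only
        exact hτa
      · simp only [if_neg hia]
        exact (hσ i).symm

theorem fin_of_mod {n : ℕ} {V : Set (Fin n → ℂ)} {a b : Fin n} (hab : a ≠ b) (g : GL (Fin 2) ℚ)
    (hg : 0 < g.det.val) (h : ∀ x ∈ V, ∃ τ : ℍ, x a = jInv τ ∧ x b = jInv (gact g τ)) :
    FinAtypical V := by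
  obtain ⟨T, h1, h2, h3⟩ := sub_of_mod hab g hg h
  exact fin_of_sub h1 h2 h3

end Pool.Agent.LGO.ZG
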