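import Mathlib
import Pool.Agent.LGO.ZG.Defs
import Pool.Agent.LGO.CM.Inv
import Pool.Agent.LGO.U.RMob
import Pool.Agent.LGO.U.RFld
import Pool.Agent.LGO.U.RInt
import Pool.Agent.LGO.P.Ht
import Pool.Agent.LGO.H.BdC

/-!
# LGO/ZG: heights of all coordinates of a point of a rational curve

`hts`: from the height of one coordinate.  `hb_cm`: if one coordinate is a singular modulus.  `hb_pair`: if two
coordinates, which are not similar, are isogenous and not CM.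
-/

namespace Pool.Agent.LGO.ZG

open Polynomial Pool.Agent.Hhelper14.ZP Pool.Agent.Hhelper14.ZPL Pool.Agent.LGO Pool.Agent.LGO.U
  Pool.Agent.LGO.ZF

private theorem Hts_int (A B : Polynomial Qb) (hd : B.natDegree < A.natDegree) : ∃ r : ℕ, 0 < r ∧
    ∀ (n : ℕ) (x t : ℂ), 0 < n → IsIntegral ℤ ((n : ℂ) * x) → (aeval t A : ℂ) = x * aeval t B →
      IsIntegral ℤ (((r * n : ℕ) : ℂ) * t) := by
  obtain ⟨m1, hm1, h1⟩ := RInt_den A
  obtain ⟨m2, hm2, h2⟩ := RInt_den B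
  set m : ℕ := m1 * m2 with hm
  have hmpos : 0 < m := Nat.mul_pos hm1 hm2
  have hA : ∀ i, IsIntegral ℤ ((m : ℂ) * algebraMap Qb ℂ (A.coeff i)) := RInt_den_mul A h1 m2
  have hB : ∀ i, IsIntegral ℤ ((m : ℂ) * algebraMap Qb ℂ (B.coeff i)) := by
    have := RInt_den_mul B h2 m1
    intro i
    rw [hm, Nat.mul_comm]
    exact this i
  have hA0 : A ≠ 0 := by
    rintro rfl
    simp at hd
  have hla : algebraMap Qb ℂ A.leadingCoeff ≠ 0 := by
    intro h
    exact hA0 (Polynomial.leadingCoeff_eq_zero.1 ((map_eq_zero _).1 h))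
  obtain ⟨s, hs, hs'⟩ := RInt_one ((m : ℂ) * algebraMap Qb ℂ A.leadingCoeff)⁻¹ (by
    have hmq : IsAlgebraic ℚ (m : ℂ) := by
      have := isAlgebraic_algebraMap (R := ℚ) (A := ℂ) (m : ℚ)
      simpa using this
    exact (hmq.mul (RInt_alg _)).inv)
  refine ⟨s, hs, fun n x t hn hx hxt => ?_⟩
  set P : Polynomial ℂ := C ((m : ℂ) * n) * A.map (algebraMap Qb ℂ) -
    C ((m : ℂ) * (n * x)) * B.map (algebraMap Qb ℂ) with hP
  have hmC : (m : ℂ) * n ≠ 0 := by
    have : m * n ≠ 0 := (Nat.mul_pos hmpos hn).ne'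
    exact_mod_cast this
  have hmC' : (m : ℂ) ≠ 0 := by exact_mod_cast hmpos.ne'
  have hPc : ∀ i, IsIntegral ℤ (P.coeff i) := by
    intro i
    rw [hP, Polynomial.coeff_sub, Polynomial.coeff_C_mul, Polynomial.coeff_C_mul,
      Polynomial.coeff_map, Polynomial.coeff_map]
    have e1 : (m : ℂ) * n * algebraMap Qb ℂ (A.coeff i) =
        (n : ℂ) * ((m : ℂ) * algebraMap Qb ℂ (A.coeff i)) := by ring
    have e2 : (m : ℂ) * (n * x) * algebraMap Qb ℂ (B.coeff i) =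
        (n * x) * ((m : ℂ) * algebraMap Qb ℂ (B.coeff i)) := by ring
    rw [e1, e2]
    exact (RInt_natmul _ (hA i)).sub (hx.mul (hB i))
  have hPt : P.eval t = 0 := by
    rw [hP]
    simp only [Polynomial.eval_sub, Polynomial.eval_mul, Polynomial.eval_C,
      Polynomial.eval_map_algebraMap]
    rw [hxt]; ring
  have hdeg : P.natDegree = A.natDegree := by
    rw [hP, Polynomial.natDegree_sub_eq_left_of_natDegree_lt]
    · rw [Polynomial.natDegree_C_mul hmC, Polynomial.natDegree_map]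
    · rw [Polynomial.natDegree_C_mul hmC, Polynomial.natDegree_map]
      refine lt_of_le_of_lt (Polynomial.natDegree_C_mul_le _ _) ?_
      rw [Polynomial.natDegree_map]; exact hd
  have hlc : P.leadingCoeff = (m : ℂ) * n * algebraMap Qb ℂ A.leadingCoeff := by
    rw [Polynomial.leadingCoeff, hdeg, hP, Polynomial.coeff_sub, Polynomial.coeff_C_mul,
      Polynomial.coeff_C_mul, Polynomial.coeff_map, Polynomial.coeff_map,
      Polynomial.coeff_eq_zero_of_natDegree_lt hd, map_zero, mul_zero, sub_zero]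
    rfl
  have h3 := RInt_lc P hPc t hPt
  rw [hlc] at h3
  have h4 := hs'.mul h3
  have : (s : ℂ) * ((m : ℂ) * algebraMap Qb ℂ A.leadingCoeff)⁻¹ *
      ((m : ℂ) * n * algebraMap Qb ℂ A.leadingCoeff * t) = ((s * n : ℕ) : ℂ) * t := by
    push_cast
    field_simp
  rw [this] at h4
  exact h4

/-- the height of the parameter, pole at infinity -/
theorem bd_t {A B : Polynomial Qb} (hc : IsCoprime A B) (hd : B.natDegree < A.natDegree) :
    ∃ C : ℝ, 0 ≤ C ∧ ∀ (K : IntermediateField ℚ ℂ) [FiniteDimensional ℚ K] (M : ℝ) (x t : ℂ),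
      Bd K M x → t ∈ K → (aeval t A : ℂ) = x * aeval t B → Bd K (M + C) t := by
  obtain ⟨C₁, hC₁, h1⟩ := P.P_house hc hd
  obtain ⟨r, hr, h2⟩ := Hts_int A B hd
  have hr1 : (1 : ℝ) ≤ r := by exact_mod_cast hr
  refine ⟨Real.log C₁ + Real.log r, add_nonneg (Real.log_nonneg hC₁) (Real.log_nonneg hr1), ?_⟩
  intro K _ M x t hx ht hxt
  have hM := hx.nonneg
  refine ⟨ht, ?_, ?_⟩
  · obtain ⟨n, hn, hnM, hint⟩ := hx.den
    refine ⟨r * n, Nat.mul_pos hr hn, ?_, h2 n x t hn hint hxt⟩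
    rw [Real.exp_add, Real.exp_add, Real.exp_log (by linarith), Real.exp_log (by linarith)]
    push_cast
    have e1 : (0 : ℝ) < Real.exp M := Real.exp_pos _
    calc (r : ℝ) * n ≤ r * Real.exp M := mul_le_mul_of_nonneg_left hnM (by linarith)
      _ = Real.exp M * (1 * r) := by ring
      _ ≤ Real.exp M * (C₁ * r) := by
          refine mul_le_mul_of_nonneg_left ?_ e1.le
          exact mul_le_mul_of_nonneg_right hC₁ (by linarith)
  · intro σ
    obtain ⟨s, hs⟩ := exists_aut K σ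
    rw [← hs ⟨t, ht⟩]
    have e1 : (1 : ℝ) ≤ Real.exp M := Real.one_le_exp hM
    have e2 := h1 s t x hxt
    have e3 : max 1 ‖s x‖ ≤ Real.exp M := max_le e1 (hx.aut s)
    rw [Real.exp_add, Real.exp_add, Real.exp_log (by linarith), Real.exp_log (by linarith)]
    calc ‖s t‖ ≤ C₁ * max 1 ‖s x‖ := e2
      _ ≤ C₁ * Real.exp M := mul_le_mul_of_nonneg_left e3 (by linarith)
      _ = Real.exp M * (C₁ * 1) := by ring
      _ ≤ Real.exp M * (C₁ * r) := by
          refine mul_le_mul_of_nonneg_left ?_ (by linarith)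
          exact mul_le_mul_of_nonneg_left hr1 (by linarith)

variable {n : ℕ} {A B : Fin n → Polynomial Qb}

/-- numbers -/
private theorem Hts_num {a C₂ D M F : ℝ} (ha : 1 ≤ a) (hM : 0 ≤ M)
    (hF2 : F ≤ C₂ * D) : a * F * (1 + M) ≤ a * C₂ * D * (1 + M) := by
  have : a * F ≤ a * (C₂ * D) := mul_le_mul_of_nonneg_left hF2 (by linarith)
  calc a * F * (1 + M) ≤ a * (C₂ * D) * (1 + M) := mul_le_mul_of_nonneg_right this (by linarith)
    _ = _ := by ring

/-- the parameter and the coefficients in one field -/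
private theorem Hts_fld {a : Fin n} (ha : (B a).natDegree < (A a).natDegree) :
    ∃ C : ℕ, 0 < C ∧ ∀ (K : IntermediateField ℚ ℂ) [FiniteDimensional ℚ K] (t : ℂ) (x : Fin n → ℂ),
      (∀ k, (aeval t (B k) : ℂ) ≠ 0 ∧ (aeval t (A k) : ℂ) = x k * aeval t (B k)) → x a ∈ K →
        ∃ K' : IntermediateField ℚ ℂ, K ≤ K' ∧ FiniteDimensional ℚ K' ∧
          Module.finrank ℚ K' ≤ C * Module.finrank ℚ K ∧ t ∈ K' ∧ (∀ k, x k ∈ K') ∧
          ∀ k i, (((A k).coeff i : Qb) : ℂ) ∈ K' ∧ (((B k).coeff i : Qb) : ℂ) ∈ K' := by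
  classical
  obtain ⟨C₂, hC₂, h2⟩ := fld_t (A a) (B a) ha (Finset.univ.image A ∪ Finset.univ.image B)
  refine ⟨C₂, hC₂, fun K _ t x hx hK => ?_⟩
  obtain ⟨K', hKK', hfd, hrk, htK, hcoef⟩ := h2 K (x a) t hK (hx a).2
  have hcA : ∀ k i, (((A k).coeff i : Qb) : ℂ) ∈ K' := fun k i =>
    hcoef (A k) (Finset.mem_union_left _ (Finset.mem_image_of_mem _ (Finset.mem_univ k))) i
  have hcB : ∀ k i, (((B k).coeff i : Qb) : ℂ) ∈ K' := fun k i =>
    hcoef (B k) (Finset.mem_union_right _ (Finset.mem_image_of_mem _ (Finset.mem_univ k))) i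
  refine ⟨K', hKK', hfd, hrk, htK, fun k => ?_, fun k i => ⟨hcA k i, hcB k i⟩⟩
  have e1 : x k = aeval t (A k) / aeval t (B k) := by
    rw [(hx k).2, mul_div_cancel_right₀ _ (hx k).1]
  rw [e1]
  exact div_mem (mem_aeval htK (hcA k)) (mem_aeval htK (hcB k))

private theorem hts_inf (hc : ∀ i, IsCoprime (A i) (B i)) {a : Fin n}
    (ha : (B a).natDegree < (A a).natDegree) :
    ∃ (C : ℕ), ∀ (t : ℂ) (x : Fin n → ℂ),
      (∀ k, (aeval t (B k) : ℂ) ≠ 0 ∧ (aeval t (A k) : ℂ) = x k * aeval t (B k)) →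
      ∀ (K : IntermediateField ℚ ℂ) [FiniteDimensional ℚ K] (M : ℝ), Bd K M (x a) →
        ∃ K' : IntermediateField ℚ ℂ, K ≤ K' ∧ FiniteDimensional ℚ K' ∧
          (Module.finrank ℚ K' : ℝ) ≤ C * Module.finrank ℚ K ∧
          ∀ k, Bd K' ((C : ℝ) * Module.finrank ℚ K * (1 + M)) (x k) := by
  classical
  obtain ⟨C₁, hC₁, h1⟩ := bd_t (hc a) ha
  obtain ⟨C₂, hC₂, h2⟩ := Hts_fld (A := A) (B := B) ha
  choose C₃ hC₃ h3 using fun k => bd_ratio (A k) (B k)
  obtain ⟨N, hN⟩ := exists_nat_ge (∑ k, C₃ k * C₂ * (1 + C₁))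
  refine ⟨C₂ + N, ?_⟩
  intro t x hx K _ M hM
  have hD1 : (1 : ℝ) ≤ Module.finrank ℚ K := by exact_mod_cast (Module.finrank_pos : 0 < Module.finrank ℚ K)
  have hM0 := hM.nonneg
  obtain ⟨K', hKK', hfd, hrk, htK, hxK, hcoef⟩ := h2 K t x hx hM.mem
  have hrk' : (Module.finrank ℚ K' : ℝ) ≤ C₂ * Module.finrank ℚ K := by exact_mod_cast hrk
  have ht := h1 K' M (x a) t (hM.le hKK') htK (hx a).2
  refine ⟨K', hKK', hfd, ?_, ?_⟩
  · refine hrk'.trans (mul_le_mul_of_nonneg_right ?_ (by linarith))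
    push_cast
    linarith [(Nat.cast_nonneg N : (0 : ℝ) ≤ N)]
  · intro k
    have e1 := h3 k K' _ t (x k) ht.nonneg ht (hxK k) (hx k).1 (hx k).2
    refine e1.mono ?_
    have e2 := Hts_num (hC₃ k) (by linarith : 0 ≤ M + C₁) hrk'
    refine e2.trans ?_
    have e3 : 1 + (M + C₁) ≤ (1 + C₁) * (1 + M) := by nlinarith
    have e4 : C₃ k * C₂ * (1 + C₁) ≤ N := by
      refine le_trans ?_ hN
      refine Finset.single_le_sum (f := fun k => C₃ k * C₂ * (1 + C₁)) (fun j _ => ?_)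
        (Finset.mem_univ k)
      have := hC₃ j
      positivity
    have e5 : (0 : ℝ) ≤ C₃ k * C₂ := by
      have := hC₃ k
      positivity
    calc C₃ k * C₂ * Module.finrank ℚ K * (1 + (M + C₁))
        ≤ C₃ k * C₂ * Module.finrank ℚ K * ((1 + C₁) * (1 + M)) :=
          mul_le_mul_of_nonneg_left e3 (by positivity)
      _ = (C₃ k * C₂ * (1 + C₁)) * (Module.finrank ℚ K * (1 + M)) := by ring
      _ ≤ ((C₂ + N : ℕ) : ℝ) * (Module.finrank ℚ K * (1 + M)) := by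
          refine mul_le_mul_of_nonneg_right ?_ (by positivity)
          push_cast
          linarith [(Nat.cast_nonneg C₂ : (0 : ℝ) ≤ C₂)]
      _ = _ := by ring

/-- a nonconstant function has a pole -/
theorem has_pole (h : Rat0 A B) (a : Fin n) : (∃ c : Qb, (B a).eval c = 0) ∨
    (B a).natDegree < (A a).natDegree := by
  by_cases hB : (B a).natDegree = 0
  · right
    have := h.nc a
    rw [hB] at this ⊢
    simpa using this
  · left
    obtain ⟨c, hc⟩ := IsAlgClosed.exists_root (B a) (by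
      rw [degree_eq_natDegree (h.ne a)]
      exact_mod_cast hB)
    exact ⟨c, hc⟩

/-- the heights of all coordinates from the height of one of them; `T` is a finite set of parameters -/
theorem hts (h : Rat0 A B) (a : Fin n) :
    ∃ (C : ℕ) (T : Set ℂ), T.Finite ∧ ∀ (t : ℂ) (x : Fin n → ℂ), t ∉ T →
      (∀ k, (aeval t (B k) : ℂ) ≠ 0 ∧ (aeval t (A k) : ℂ) = x k * aeval t (B k)) →
      ∀ (K : IntermediateField ℚ ℂ) [FiniteDimensional ℚ K] (M : ℝ), Bd K M (x a) →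
        ∃ K' : IntermediateField ℚ ℂ, K ≤ K' ∧ FiniteDimensional ℚ K' ∧
          (Module.finrank ℚ K' : ℝ) ≤ C * Module.finrank ℚ K ∧
          ∀ k, Bd K' ((C : ℝ) * Module.finrank ℚ K * (1 + M)) (x k) := by
  rcases has_pole h a with ⟨c, hca⟩ | ha
  · choose A' B' h1 h2 h3 h4 h5 using fun k => mob c (h.cop k) (h.nc k)
    obtain ⟨C, h6⟩ := hts_inf h1 (h4 a hca)
    refine ⟨C, {(c : ℂ)}, Set.finite_singleton _, fun t x ht hx K _ M hM => ?_⟩
    have htc : t ≠ c := ht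
    have hz : (t - (c : ℂ))⁻¹ ≠ 0 := inv_ne_zero (sub_ne_zero.2 htc)
    refine h6 (t - (c : ℂ))⁻¹ x (fun k => ?_) K M hM
    obtain ⟨e1, e2⟩ := h3 k t htc
    rw [e1, e2]
    refine ⟨mul_ne_zero (pow_ne_zero _ hz) (hx k).1, ?_⟩
    rw [(hx k).2]
    ring
  · obtain ⟨C, h6⟩ := hts_inf h.cop ha
    exact ⟨C, ∅, Set.finite_empty, fun t x _ hx K _ M hM => h6 t x hx K M hM⟩

private theorem pair_inf (hc : ∀ i, IsCoprime (A i) (B i)) (hd : ∀ i, 1 ≤ rdeg (A i) (B i))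
    (hP : PairAll) {a b : Fin n} (ha : (B a).natDegree < (A a).natDegree)
    (hb : (A b).natDegree ≤ (B b).natDegree ∨ rdeg (A a) (B a) ≠ rdeg (A b) (B b)) :
    ∃ (C : ℕ) (T : Set ℂ), T.Finite ∧ ∀ (t : ℂ) (x : Fin n → ℂ), t ∉ T →
      (∀ k, (aeval t (B k) : ℂ) ≠ 0 ∧ (aeval t (A k) : ℂ) = x k * aeval t (B k)) →
      NCM (x b) → (∃ N, 0 < N ∧ IsogDeg N (x b) (x a)) →
      ∀ (K : IntermediateField ℚ ℂ) [FiniteDimensional ℚ K], x a ∈ K →
        ∃ K' : IntermediateField ℚ ℂ, K ≤ K' ∧ FiniteDimensional ℚ K' ∧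
          (Module.finrank ℚ K' : ℝ) ≤ C * Module.finrank ℚ K ∧
          ∀ k, Bd K' (((C : ℝ) * Module.finrank ℚ K) ^ C) (x k) := by
  classical
  obtain ⟨C₁, T, hT, h1⟩ := hP _ _ _ _ (hc a) (hc b) ha (hd b) hb
  obtain ⟨C₂, hC₂, h2⟩ := Hts_fld (A := A) (B := B) ha
  choose C₃ hC₃ h3 using fun k => bd_ratio (A k) (B k)
  choose E hE h4 using fun k => pw_absorb (C₃ k * C₂) (C₁ * C₂) C₁
  refine ⟨C₂ + ∑ k, E k, T, hT, ?_⟩
  intro t x ht hx hncm hiso K _ hK
  set D : ℕ := Module.finrank ℚ K with hD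
  have hD1 : 1 ≤ D := Module.finrank_pos
  have hD1' : (1 : ℝ) ≤ D := by exact_mod_cast hD1
  obtain ⟨K', hKK', hfd, hrk, htK, hxK, hcoef⟩ := h2 K t x hx hK
  obtain ⟨-, h6⟩ := h1 K' (x a) (x b) t (fun i => ⟨(hcoef a i).1, (hcoef a i).2, (hcoef b i).1,
    (hcoef b i).2⟩) (hxK a) (hxK b) htK ht hncm hiso (hx a).1 (hx a).2 (hx b).1 (hx b).2
  have hrk' : (Module.finrank ℚ K' : ℝ) ≤ C₂ * D := by exact_mod_cast hrk
  have hM : ((C₁ : ℝ) * Module.finrank ℚ K') ^ C₁ ≤ (((C₁ * C₂ : ℕ) : ℝ) * D) ^ C₁ := by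
    refine pow_le_pow_left₀ (by positivity) ?_ _
    calc (C₁ : ℝ) * Module.finrank ℚ K' ≤ C₁ * (C₂ * D) :=
          mul_le_mul_of_nonneg_left hrk' (Nat.cast_nonneg _)
      _ = ((C₁ * C₂ : ℕ) : ℝ) * D := by push_cast; ring
  refine ⟨K', hKK', hfd, ?_, ?_⟩
  · refine hrk'.trans (mul_le_mul_of_nonneg_right ?_ (by linarith))
    exact_mod_cast Nat.le_add_right _ _
  · intro k
    have e1 := h3 k K' _ t (x k) h6.nonneg h6 (hxK k) (hx k).1 (hx k).2
    refine e1.mono ?_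
    have hC3 : (0 : ℝ) ≤ C₃ k := by linarith [hC₃ k]
    calc C₃ k * Module.finrank ℚ K' * (1 + ((C₁ : ℝ) * Module.finrank ℚ K') ^ C₁)
        ≤ C₃ k * (C₂ * D) * (1 + (((C₁ * C₂ : ℕ) : ℝ) * D) ^ C₁) := by
          refine mul_le_mul (mul_le_mul_of_nonneg_left hrk' hC3) (by linarith) (by positivity)
            (by positivity)
      _ = C₃ k * C₂ * D * (1 + (((C₁ * C₂ : ℕ) : ℝ) * D) ^ C₁) := by ring
      _ ≤ ((E k : ℝ) * D) ^ E k := h4 k D hD1
      _ ≤ (((C₂ + ∑ k, E k : ℕ) : ℝ) * D) ^ (C₂ + ∑ k, E k) := by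
          refine pw_mono ?_ hD1
          have : E k ≤ ∑ k, E k := Finset.single_le_sum (fun _ _ => Nat.zero_le _) (Finset.mem_univ k)
          omega

/-- a pole of the first function, which is not a pole of the second one or the degrees are different -/
def OneQ (A B : Fin n → Polynomial Qb) (a b : Fin n) : Prop :=
  (∃ c : Qb, (B a).eval c = 0 ∧ ((B b).eval c ≠ 0 ∨ rdeg (A a) (B a) ≠ rdeg (A b) (B b))) ∨
    ((B a).natDegree < (A a).natDegree ∧
      ((A b).natDegree ≤ (B b).natDegree ∨ rdeg (A a) (B a) ≠ rdeg (A b) (B b)))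

theorem oneQ_of_not_sim (h : Rat0 A B) {a b : Fin n} (hs : ¬ Sim A B a b) :
    OneQ A B a b ∨ OneQ A B b a := by
  by_cases hd : rdeg (A a) (B a) = rdeg (A b) (B b)
  · have h1 : ¬ ((∀ z : Qb, (B a).eval z = 0 ↔ (B b).eval z = 0) ∧
      ((B a).natDegree < (A a).natDegree ↔ (B b).natDegree < (A b).natDegree)) := fun h => hs ⟨hd, h⟩
    rw [not_and_or] at h1
    rcases h1 with h1 | h1
    · push Not at h1
      obtain ⟨z, ⟨h2, h3⟩ | ⟨h2, h3⟩⟩ := h1
      · exact Or.inl (Or.inl ⟨z, h2, Or.inl h3⟩)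
      · exact Or.inr (Or.inl ⟨z, h3, Or.inl h2⟩)
    · by_cases h2 : (B a).natDegree < (A a).natDegree
      · have h3 : ¬ (B b).natDegree < (A b).natDegree := fun h3 => h1 ⟨fun _ => h3, fun _ => h2⟩
        exact Or.inl (Or.inr ⟨h2, Or.inl (not_lt.1 h3)⟩)
      · have h3 : (B b).natDegree < (A b).natDegree := by
          by_contra h3
          exact h1 ⟨fun h => absurd h h2, fun h => absurd h h3⟩
        exact Or.inr (Or.inr ⟨h3, Or.inl (not_lt.1 h2)⟩)
  · rcases has_pole h a with ⟨c, hc⟩ | ha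
    · exact Or.inl (Or.inl ⟨c, hc, Or.inr hd⟩)
    · exact Or.inl (Or.inr ⟨ha, Or.inr hd⟩)

/-- the heights of all coordinates if two of them are isogenous and not CM -/
theorem hts_pair (h : Rat0 A B) (hP : PairAll) {a b : Fin n} (hab : OneQ A B a b) :
    ∃ (C : ℕ) (T : Set ℂ), T.Finite ∧ ∀ (t : ℂ) (x : Fin n → ℂ), t ∉ T →
      (∀ k, (aeval t (B k) : ℂ) ≠ 0 ∧ (aeval t (A k) : ℂ) = x k * aeval t (B k)) →
      NCM (x b) → (∃ N, 0 < N ∧ IsogDeg N (x b) (x a)) →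
      ∀ (K : IntermediateField ℚ ℂ) [FiniteDimensional ℚ K], x a ∈ K →
        ∃ K' : IntermediateField ℚ ℂ, K ≤ K' ∧ FiniteDimensional ℚ K' ∧
          (Module.finrank ℚ K' : ℝ) ≤ C * Module.finrank ℚ K ∧
          ∀ k, Bd K' (((C : ℝ) * Module.finrank ℚ K) ^ C) (x k) := by
  have hd : ∀ i, 1 ≤ rdeg (A i) (B i) := h.nc
  rcases hab with ⟨c, hca, hcb⟩ | ⟨ha, hb⟩
  · choose A' B' h1 h2 h3 h4 h5 using fun k => mob c (h.cop k) (hd k)
    have hcb' : (A' b).natDegree ≤ (B' b).natDegree ∨ rdeg (A' a) (B' a) ≠ rdeg (A' b) (B' b) := by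
      rcases hcb with h6 | h6
      · exact Or.inl (h5 b h6)
      · exact Or.inr (by rw [h2, h2]; exact h6)
    obtain ⟨C, T, hT, h⟩ := pair_inf h1 (fun i => by rw [h2]; exact hd i) hP (h4 a hca) hcb'
    refine ⟨C, {(c : ℂ)} ∪ (fun z : ℂ => c + z⁻¹) '' T, (Set.finite_singleton _).union (hT.image _),
      fun t x ht hx hncm hiso K _ hK => ?_⟩
    have htc : t ≠ c := fun h => ht (Or.inl h)
    have hz : (t - (c : ℂ))⁻¹ ≠ 0 := inv_ne_zero (sub_ne_zero.2 htc)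
    refine h (t - (c : ℂ))⁻¹ x ?_ (fun k => ?_) hncm hiso K hK
    · intro hmem
      apply ht
      refine Or.inr ⟨(t - (c : ℂ))⁻¹, hmem, ?_⟩
      show (c : ℂ) + ((t - (c : ℂ))⁻¹)⁻¹ = t
      rw [inv_inv]
      ring
    · obtain ⟨e1, e2⟩ := h3 k t htc
      rw [e1, e2]
      refine ⟨mul_ne_zero (pow_ne_zero _ hz) (hx k).1, ?_⟩
      rw [(hx k).2]
      ring
  · exact pair_inf h.cop hd hP ha hb

end Pool.Agent.LGO.ZG
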