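import Mathlib
import Pool.Agent.LGO.ZG.Hts
import Pool.Agent.LGO.ZF.Glue
import Pool.Agent.LGO.H.Use
import Pool.Agent.LGO.H.MDeg

/-!
# LGO/ZG: the four types of points on a rational curve

`fin_z`: finiteness from the heights.  `t1_z`, `t2_z`: one pair of isogenous coordinates is not similar.
`t3_z`, `t4_z`: no condition (the heights come from the singular modulus, `CMAll`).
-/

namespace Pool.Agent.LGO.ZG

open Polynomial UpperHalfPlane Pool.Agent.Hhelper14.ZP Pool.Agent.Hhelper14.ZPL Pool.Agent.LGO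
  Pool.Agent.LGO.U Pool.Agent.LGO.ZF Pool.Agent.LGO.PWG

variable {n mm : ℕ} {V : Set (Fin n → ℂ)} {A B : Fin n → Polynomial Qb}

/-- finiteness from the heights -/
theorem fin_z (h : Par V A B) (hm : 0 < mm) (i : Fin mm → Fin n) {Q : ℝ → (Fin mm → ℂ) → Prop}
    (hmono : ∀ (H H' : ℝ), H ≤ H' → ∀ x, Q H x → Q H' x)
    (hF : FinAbs Q {y : Fin mm → ℂ | ∃ x ∈ V, y = fun a => x (i a)})
    {T : Set (Fin n → ℂ)} (hTV : T ⊆ V) {E : Set (Fin n → ℂ)} (hE : E.Finite) (C : ℕ)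
    (hHB : ∀ x ∈ T, x ∉ E → HB i C x) (hal : ∀ x ∈ T, ∀ a, IsAlgebraic ℚ (x (i a)))
    (C₂ : ℕ) (hQ : ∀ x ∈ T, x ∉ E → ∀ (K : IntermediateField ℚ ℂ) [FiniteDimensional ℚ K] (M : ℝ),
      2 ≤ M → (Module.finrank ℚ K : ℝ) ≤ M → (∀ k, Bd K M (x k)) → ∀ s : ℂ ≃+* ℂ,
        Q (M ^ C₂) (fun a => s (x (i a)))) : T.Finite := by
  obtain ⟨k₀, hk₀, hs⟩ := stab h.kcl
  set F : ℕ := C + 2 with hFdef
  set G : ℕ := F * (C₂ + 1) with hG
  have h1 : ((fun (x : Fin n → ℂ) (a : Fin mm) => x (i a)) '' (T \ E)).Finite := by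
    refine hF k₀ ?_ _ ?_ G ?_ ?_
    · rintro s hsk y ⟨x, hx, rfl⟩
      exact ⟨_, hs s hsk x hx, rfl⟩
    · rintro _ ⟨x, hx, rfl⟩
      exact ⟨x, hTV hx.1, rfl⟩
    · rintro _ ⟨x, hx, rfl⟩ a
      exact hal x hx.1 a
    · rintro _ ⟨x, ⟨hxT, hxE⟩, rfl⟩ s
      have hfd : FiniteDimensional ℚ (IntermediateField.adjoin ℚ (Set.range fun a => x (i a))) := by
        refine IntermediateField.finiteDimensional_adjoin ?_
        rintro z ⟨a, rfl⟩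
        exact (hal x hxT a).isIntegral
      set K := IntermediateField.adjoin ℚ (Set.range fun a => x (i a)) with hK
      have hmem : ∀ a, x (i a) ∈ K := fun a => IntermediateField.subset_adjoin ℚ _ ⟨a, rfl⟩
      obtain ⟨K', -, hK', h3, h4⟩ := hHB x hxT hxE K hmem
      set D : ℕ := Module.finrank ℚ K with hD
      have hD1 : 1 ≤ D := Module.finrank_pos
      have hD1' : (1 : ℝ) ≤ D := by exact_mod_cast hD1
      set M : ℝ := ((F : ℝ) * D) ^ F with hM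
      have hFD : (2 : ℝ) ≤ (F : ℝ) * D := by
        have : (2 : ℝ) ≤ F := by rw [hFdef]; push_cast; linarith [(Nat.cast_nonneg C : (0 : ℝ) ≤ C)]
        nlinarith
      have hM2 : 2 ≤ M := by
        rw [hM]
        exact hFD.trans (le_self_pow₀ (by linarith) (by omega))
      have hCM : ((C : ℝ) * D) ^ C ≤ M := pw_mono (by omega) hD1
      have hKM : (Module.finrank ℚ K' : ℝ) ≤ M := by
        refine h3.trans ?_
        calc (C : ℝ) * D ≤ F * D := by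
              refine mul_le_mul_of_nonneg_right ?_ (by linarith)
              exact_mod_cast (by omega : C ≤ F)
          _ ≤ M := le_self_pow₀ (by linarith) (by omega)
      have hMC : ∀ j ≤ C₂ + 1, M ^ j ≤ ((G : ℝ) * D) ^ G := by
        intro j hj
        have e1 : M ^ j ≤ ((F : ℝ) * D) ^ G := by
          rw [hM, ← pow_mul]
          exact pow_le_pow_right₀ (by linarith) (Nat.mul_le_mul_left _ hj)
        refine e1.trans (pow_le_pow_left₀ (by linarith) ?_ _)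
        refine mul_le_mul_of_nonneg_right ?_ (by linarith)
        rw [hG]
        exact_mod_cast Nat.le_mul_of_pos_right _ (Nat.succ_pos _)
      refine ⟨hmono _ _ ?_ _ (hQ x hxT hxE K' M hM2 hKM (fun k => (h4 k).mono hCM) s), fun a => ?_⟩
      · have := hMC C₂ (by omega)
        linarith
      · refine ((h4 (i a)).aut s).trans (Real.exp_le_exp.2 ?_)
        have := hMC 1 (by omega)
        rw [pow_one] at this
        linarith
  have h2 : (T \ E).Finite := by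
    refine (h1.biUnion (t := fun y => {x ∈ V | y = fun a => x (i a)}) fun y _ => h.fibs hm i y).subset ?_
    intro x hx
    exact Set.mem_biUnion (Set.mem_image_of_mem _ hx) ⟨hTV hx.1, rfl⟩
  refine (hE.union h2).subset fun x hx => ?_
  by_cases hxE : x ∈ E
  · exact Or.inl hxE
  · exact Or.inr ⟨hx, hxE⟩

theorem iso_q : ∃ C : ℕ, ∀ (K : IntermediateField ℚ ℂ) [FiniteDimensional ℚ K] (M : ℝ) (x y : ℂ),
    2 ≤ M → (Module.finrank ℚ K : ℝ) ≤ M → Bd K M x → Bd K M y → NCM x → NCM y → HeckeRel x y →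
    ∀ s : ℂ ≃+* ℂ, IsoLe (M ^ C) (s x) (s y) := by
  obtain ⟨C, hC⟩ := isog_use
  refine ⟨C, fun K _ M x y hM hK hx hy nx ny hxy s => ?_⟩
  exact isoLe_of hxy (hC K M x y hM hK hx hy nx ny (heckeRel_iff.mp hxy)) s

theorem cm_q : ∃ C : ℕ, ∀ (K : IntermediateField ℚ ℂ) [FiniteDimensional ℚ K] (M : ℝ) (x : ℂ),
    2 ≤ M → (Module.finrank ℚ K : ℝ) ≤ M → Bd K M x → x ≠ 0 → x ≠ 1728 → IsCMVal x →
    ∀ s : ℂ ≃+* ℂ, QJ (M ^ C) (s x) := by
  obtain ⟨C, hC⟩ := cm_conj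
  refine ⟨C, fun K _ M x hM hK hx h0 h1 hcm s => ?_⟩
  have hncm : ¬ NCM x := by rw [ncm_iff, not_not]; exact hcm
  obtain ⟨τ, a, b, c, -, hj, hq, ha, hb, hc⟩ := hC K M x hM hK hx h0 h1 hncm s
  refine ⟨τ, hj.symm, τ.im_pos, ![a, b, c], ?_, ?_, hq.eq⟩
  · intro h6
    have h7 := congrFun h6 0
    have h8 : a = 0 := h7
    exact hq.pos.ne' h8
  · intro k
    fin_cases k
    · have h6 : |(a : ℝ)| = a := abs_of_pos (by exact_mod_cast hq.pos)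
      change |(a : ℝ)| ≤ _
      rw [h6]
      exact ha
    · exact hb
    · exact hc

theorem HB.mono {i : Fin mm → Fin n} {C C' : ℕ} {x : Fin n → ℂ} (h : HB i C x) (hC : C ≤ C') :
    HB i C' x := by
  intro K _ hK
  obtain ⟨K', h1, h2, h3, h4⟩ := h K hK
  refine ⟨K', h1, h2, h3.trans ?_, fun k => (h4 k).mono (pw_mono hC Module.finrank_pos)⟩
  refine mul_le_mul_of_nonneg_right ?_ (Nat.cast_nonneg _)
  exact_mod_cast hC

/-- the heights if two coordinates, which are not similar, are isogenous and not CM -/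
theorem hb_pair (hp : Par V A B) (h : Rat0 A B) (hP : PairAll) (i : Fin mm → Fin n) {a b : Fin mm}
    (hs : ¬ Sim A B (i a) (i b)) :
    ∃ (C : ℕ) (E : Set (Fin n → ℂ)), E.Finite ∧ ∀ x ∈ V, x ∉ E → NCM (x (i a)) → NCM (x (i b)) →
      HeckeRel (x (i a)) (x (i b)) → HB i C x := by
  obtain ⟨E, hE, hpar⟩ := hp.par
  rcases oneQ_of_not_sim h hs with hab | hab
  · obtain ⟨C, T, hT, h1⟩ := hts_pair h hP hab
    refine ⟨C, E ∪ _, hE.union (fin_par (A := A) (B := B) hT), ?_⟩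
    intro x hx hxE ha hb hab' K _ hK
    obtain ⟨t, ht⟩ := hpar x hx fun h => hxE (Or.inl h)
    have htT : t ∉ T := fun h => hxE (Or.inr ⟨t, h, ht⟩)
    obtain ⟨N, hN, hiso⟩ := heckeRel_iff.mp hab'
    exact h1 t x htT (fun k => ⟨(ht k).1, (ht k).2.symm⟩) hb ⟨N, hN, hiso.symm⟩ K (hK a)
  · obtain ⟨C, T, hT, h1⟩ := hts_pair h hP hab
    refine ⟨C, E ∪ _, hE.union (fin_par (A := A) (B := B) hT), ?_⟩
    intro x hx hxE ha hb hab' K _ hK
    obtain ⟨t, ht⟩ := hpar x hx fun h => hxE (Or.inl h)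
    have htT : t ∉ T := fun h => hxE (Or.inr ⟨t, h, ht⟩)
    obtain ⟨N, hN, hiso⟩ := heckeRel_iff.mp hab'
    exact h1 t x htT (fun k => ⟨(ht k).1, (ht k).2.symm⟩) ha ⟨N, hN, hiso⟩ K (hK b)

/-- the heights if one coordinate is a singular modulus -/
theorem hb_cm (hp : Par V A B) (h : Rat0 A B) (hC : CMAll) (i : Fin mm → Fin n) (a : Fin mm) :
    ∃ (C : ℕ) (E : Set (Fin n → ℂ)), E.Finite ∧ ∀ x ∈ V, x ∉ E → IsCMVal (x (i a)) → HB i C x := by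
  obtain ⟨E, hE, hpar⟩ := hp.par
  obtain ⟨C₁, T, hT, h1⟩ := hts h (i a)
  obtain ⟨C₂, h2⟩ := hC
  obtain ⟨C₃, hC₃, h3⟩ := pw_absorb C₁ C₂ C₂
  refine ⟨C₁ + C₃, E ∪ _, hE.union (fin_par (A := A) (B := B) hT), ?_⟩
  intro x hx hxE hcm K _ hK
  obtain ⟨t, ht⟩ := hpar x hx fun h => hxE (Or.inl h)
  have htT : t ∉ T := fun h => hxE (Or.inr ⟨t, h, ht⟩)
  obtain ⟨K', h4, h5, h6, h7⟩ := h1 t x htT (fun k => ⟨(ht k).1, (ht k).2.symm⟩) K _
    (h2 K (x (i a)) (hK a) hcm)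
  have hD1 : 1 ≤ Module.finrank ℚ K := Module.finrank_pos
  refine ⟨K', h4, h5, h6.trans ?_, fun k => (h7 k).mono ?_⟩
  · refine mul_le_mul_of_nonneg_right ?_ (Nat.cast_nonneg _)
    exact_mod_cast Nat.le_add_right _ _
  · exact (h3 _ hD1).trans (pw_mono (Nat.le_add_left _ _) hD1)

private theorem alg_iso (h : Par V A B) {a b : Fin n} (hab : a ≠ b) {x : Fin n → ℂ} (hx : x ∈ V)
    (hr : HeckeRel (x a) (x b)) (c : Fin n) : IsAlgebraic ℚ (x c) :=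
  PW.alg_of_isog h.irr h.kcl h.dim hab (h.nomod _ _ hab) hx (heckeRel_iff.mp hr) c

private theorem pow_both {M : ℝ} (hM : 2 ≤ M) {a b : ℕ} (h : a ≤ b) : M ^ a ≤ M ^ b :=
  pow_le_pow_right₀ (by linarith) h

/-- **type 2** -/
theorem t2_z (h : Par V A B) (h0 : Rat0 A B) (hP : PairAll) (i : Fin 4 → Fin n)
    (hi : Function.Injective i) (hs : ¬ Sim A B (i 0) (i 1) ∨ ¬ Sim A B (i 2) (i 3))
    (hF : FinAbs Q2 {y : Fin 4 → ℂ | ∃ x ∈ V, y = fun a => x (i a)}) :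
    {x ∈ V | (∀ a, NCM (x (i a))) ∧ HeckeRel (x (i 0)) (x (i 1)) ∧
      HeckeRel (x (i 2)) (x (i 3))}.Finite := by
  obtain ⟨C₂, hC₂⟩ := iso_q
  have key : ∃ (C : ℕ) (E : Set (Fin n → ℂ)), E.Finite ∧ ∀ x ∈ V, x ∉ E → (∀ a, NCM (x (i a))) →
      HeckeRel (x (i 0)) (x (i 1)) → HeckeRel (x (i 2)) (x (i 3)) → HB i C x := by
    rcases hs with hs | hs
    · obtain ⟨C, E, hE, h1⟩ := hb_pair h h0 hP i hs
      exact ⟨C, E, hE, fun x hx hxE hn h01 _ => h1 x hx hxE (hn _) (hn _) h01⟩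
    · obtain ⟨C, E, hE, h1⟩ := hb_pair h h0 hP i hs
      exact ⟨C, E, hE, fun x hx hxE hn _ h23 => h1 x hx hxE (hn _) (hn _) h23⟩
  obtain ⟨C, E, hE, h1⟩ := key
  refine fin_z h (by omega) i (fun H H' hH x hx => ⟨hx.1.mono hH, hx.2.mono hH⟩) hF
    (fun x hx => hx.1) hE C (fun x hx hxE => h1 x hx.1 hxE hx.2.1 hx.2.2.1 hx.2.2.2) ?_ C₂ ?_
  · intro x hx a
    exact alg_iso h (hi.ne (by decide : (0 : Fin 4) ≠ 1)) hx.1 hx.2.2.1 _
  · intro x hx hxE K _ M hM hK hb s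
    exact ⟨hC₂ K M _ _ hM hK (hb _) (hb _) (hx.2.1 0) (hx.2.1 1) hx.2.2.1 s,
      hC₂ K M _ _ hM hK (hb _) (hb _) (hx.2.1 2) (hx.2.1 3) hx.2.2.2 s⟩

/-- **type 1** -/
theorem t1_z (h : Par V A B) (h0 : Rat0 A B) (hP : PairAll) (i : Fin 3 → Fin n)
    (hi : Function.Injective i)
    (hs : ¬ Sim A B (i 0) (i 1) ∨ ¬ Sim A B (i 0) (i 2) ∨ ¬ Sim A B (i 1) (i 2))
    (hF : FinAbs Q1 {y : Fin 3 → ℂ | ∃ x ∈ V, y = fun a => x (i a)}) :
    {x ∈ V | (∀ a, NCM (x (i a))) ∧ HeckeRel (x (i 0)) (x (i 1)) ∧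
      HeckeRel (x (i 0)) (x (i 2))}.Finite := by
  obtain ⟨C₂, hC₂⟩ := iso_q
  have key : ∃ (C : ℕ) (E : Set (Fin n → ℂ)), E.Finite ∧ ∀ x ∈ V, x ∉ E → (∀ a, NCM (x (i a))) →
      HeckeRel (x (i 0)) (x (i 1)) → HeckeRel (x (i 0)) (x (i 2)) → HB i C x := by
    rcases hs with hs | hs | hs
    · obtain ⟨C, E, hE, h1⟩ := hb_pair h h0 hP i hs
      exact ⟨C, E, hE, fun x hx hxE hn h01 _ => h1 x hx hxE (hn _) (hn _) h01⟩
    · obtain ⟨C, E, hE, h1⟩ := hb_pair h h0 hP i hs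
      exact ⟨C, E, hE, fun x hx hxE hn _ h02 => h1 x hx hxE (hn _) (hn _) h02⟩
    · obtain ⟨C, E, hE, h1⟩ := hb_pair h h0 hP i hs
      exact ⟨C, E, hE, fun x hx hxE hn h01 h02 => h1 x hx hxE (hn _) (hn _)
        (HeckeRel.trans' (HeckeRel.symm' h01) h02)⟩
  obtain ⟨C, E, hE, h1⟩ := key
  refine fin_z h (by omega) i (fun H H' hH x hx a b => (hx a b).mono hH) hF
    (fun x hx => hx.1) hE C (fun x hx hxE => h1 x hx.1 hxE hx.2.1 hx.2.2.1 hx.2.2.2) ?_ C₂ ?_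
  · intro x hx a
    exact alg_iso h (hi.ne (by decide : (0 : Fin 3) ≠ 1)) hx.1 hx.2.2.1 _
  · intro x hx hxE K _ M hM hK hb s a b
    have hall : ∀ a, HeckeRel (x (i 0)) (x (i a)) := by
      intro a
      fin_cases a
      · exact HeckeRel.refl' _
      · exact hx.2.2.1
      · exact hx.2.2.2
    exact hC₂ K M _ _ hM hK (hb _) (hb _) (hx.2.1 a) (hx.2.1 b)
      (HeckeRel.trans' (HeckeRel.symm' (hall a)) (hall b)) s

/-- **type 3** -/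
theorem t3_z (h : Par V A B) (h0 : Rat0 A B) (hC : CMAll) (i : Fin 3 → Fin n)
    (hi : Function.Injective i)
    (hF : FinAbs Q3 {y : Fin 3 → ℂ | ∃ x ∈ V, y = fun a => x (i a)}) :
    {x ∈ V | NCM (x (i 0)) ∧ NCM (x (i 1)) ∧ HeckeRel (x (i 0)) (x (i 1)) ∧
      IsCMVal (x (i 2))}.Finite := by
  obtain ⟨C₂, hC₂⟩ := iso_q
  obtain ⟨C₃, hC₃⟩ := cm_q
  obtain ⟨C, E, hE, h1⟩ := hb_cm h h0 hC i 2
  refine fin_z (E := E ∪ ({x ∈ V | x (i 2) = 0} ∪ {x ∈ V | x (i 2) = 1728})) h (by omega) i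
    (fun H H' hH x hx => ⟨hx.1.mono hH, hx.2.mono hH⟩) hF (fun x hx => hx.1)
    (hE.union ((h.fib (i 2) 0).union (h.fib (i 2) 1728))) C
    (fun x hx hxE => h1 x hx.1 (fun h => hxE (Or.inl h)) hx.2.2.2.2) ?_ (C₂ + C₃) ?_
  · intro x hx a
    exact alg_iso h (hi.ne (by decide : (0 : Fin 3) ≠ 1)) hx.1 hx.2.2.2.1 _
  · intro x hx hxE K _ M hM hK hb s
    refine ⟨(hC₂ K M _ _ hM hK (hb _) (hb _) hx.2.1 hx.2.2.1 hx.2.2.2.1 s).mono
      (pow_both hM (by omega)), (hC₃ K M _ hM hK (hb _) ?_ ?_ hx.2.2.2.2 s).mono (pow_both hM (by omega))⟩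
    · exact fun h0 => hxE (Or.inr (Or.inl ⟨hx.1, h0⟩))
    · exact fun h0 => hxE (Or.inr (Or.inr ⟨hx.1, h0⟩))

/-- **type 4** -/
theorem t4_z (h : Par V A B) (h0 : Rat0 A B) (hC : CMAll) (halg : ∀ x : ℂ, IsCMVal x → IsAlgebraic ℚ x)
    (i : Fin 2 → Fin n) (hF : FinAbs Q4 {y : Fin 2 → ℂ | ∃ x ∈ V, y = fun a => x (i a)}) :
    {x ∈ V | IsCMVal (x (i 0)) ∧ IsCMVal (x (i 1))}.Finite := by
  obtain ⟨C₃, hC₃⟩ := cm_q
  obtain ⟨C, E, hE, h1⟩ := hb_cm h h0 hC i 0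
  refine fin_z (E := E ∪ (({x ∈ V | x (i 0) = 0} ∪ {x ∈ V | x (i 0) = 1728}) ∪
    ({x ∈ V | x (i 1) = 0} ∪ {x ∈ V | x (i 1) = 1728}))) h (by omega) i
    (fun H H' hH x hx => ⟨hx.1.mono hH, hx.2.mono hH⟩) hF (fun x hx => hx.1)
    (hE.union (((h.fib (i 0) 0).union (h.fib (i 0) 1728)).union
      ((h.fib (i 1) 0).union (h.fib (i 1) 1728)))) C
    (fun x hx hxE => h1 x hx.1 (fun h => hxE (Or.inl h)) hx.2.1) ?_ C₃ ?_
  · intro x hx a
    fin_cases a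
    · exact halg _ hx.2.1
    · exact halg _ hx.2.2
  · intro x hx hxE K _ M hM hK hb s
    refine ⟨hC₃ K M _ hM hK (hb _) ?_ ?_ hx.2.1 s, hC₃ K M _ hM hK (hb _) ?_ ?_ hx.2.2 s⟩
    · exact fun h0 => hxE (Or.inr (Or.inl (Or.inl ⟨hx.1, h0⟩)))
    · exact fun h0 => hxE (Or.inr (Or.inl (Or.inr ⟨hx.1, h0⟩)))
    · exact fun h0 => hxE (Or.inr (Or.inr (Or.inl ⟨hx.1, h0⟩)))
    · exact fun h0 => hxE (Or.inr (Or.inr (Or.inr ⟨hx.1, h0⟩)))

end Pool.Agent.LGO.ZG
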