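import Mathlib
import Pool.Agent.LGO.ZG.Types
import Pool.Agent.LGO.ZG.Cur
import Pool.Agent.LGO.ZG.Triv
import Pool.Agent.LGO.ZF.Asm

/-!
# LGO/ZG: Theorem Z from its inputs (MP_d83ecd_ag)

`main_z`: the Zilber-Pink statement for the closure of a rational curve with nonconstant coordinates, at most one pair
of which is similar (the same degree and the same poles).  Inputs: `PairAll` (LGO/PA), `CMAll` (LGO/SG), `AllFin` (PWG
and AXG: counting, charts, Ax).
-/

namespace Pool.Agent.LGO.ZG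

open Polynomial UpperHalfPlane Pool.Agent.Hhelper14.ZP Pool.Agent.Hhelper14.ZPL Pool.Agent.LGO
  Pool.Agent.LGO.U Pool.Agent.LGO.ZF Pool.Agent.LGO.PWG Pool.Agent.ZPE

variable {n : ℕ} {A B : Fin n → Polynomial Qb}

/-- no two coordinates are related by a fixed modular correspondence -/
def NoMod (V : Set (Fin n → ℂ)) : Prop := ∀ a b : Fin n, a ≠ b → ∀ g : GL (Fin 2) ℚ, 0 < g.det.val →
  ∃ x ∈ V, ¬ ∃ τ : ℍ, x a = jInv τ ∧ x b = jInv (gact g τ)

/-- the counting input -/
structure AllFin (V : Set (Fin n → ℂ)) : Prop where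
  f1 : ∀ i : Fin 3 → Fin n, Function.Injective i →
    FinAbs Q1 {y : Fin 3 → ℂ | ∃ x ∈ V, y = fun a => x (i a)}
  f2 : ∀ i : Fin 4 → Fin n, Function.Injective i →
    FinAbs Q2 {y : Fin 4 → ℂ | ∃ x ∈ V, y = fun a => x (i a)}
  f3 : ∀ i : Fin 3 → Fin n, Function.Injective i →
    FinAbs Q3 {y : Fin 3 → ℂ | ∃ x ∈ V, y = fun a => x (i a)}
  f4 : ∀ i : Fin 2 → Fin n, Function.Injective i →
    FinAbs Q4 {y : Fin 2 → ℂ | ∃ x ∈ V, y = fun a => x (i a)}

/-- at most one pair of coordinates is similar -/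
def OneSim (A B : Fin n → Polynomial Qb) : Prop :=
  ∀ a b c d : Fin n, a ≠ b → c ≠ d → Sim A B a b → Sim A B c d → (a = c ∧ b = d) ∨ (a = d ∧ b = c)

theorem Rat0.par (h : Rat0 A B) (hn : 0 < n) (hm : NoMod (curve A B)) : Par (curve A B) A B where
  irr := curve_irred h.ne
  kcl := curve_kclosed h.ne
  dim := rat_dim h hn
  nc := rat_nc h
  nomod := hm
  cop := h.cop
  deg := h.nc
  par := rat_par h

/-- finitely many points on special subvarieties of codimension at least two -/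
theorem atyp_z (h : Rat0 A B) (hn : 0 < n) (hs : OneSim A B) (hP : PairAll) (hC : CMAll)
    (halg : ∀ x : ℂ, IsCMVal x → IsAlgebraic ℚ x) (hm : NoMod (curve A B)) (hF : AllFin (curve A B)) :
    (Atyp (curve A B)).Finite := by
  have hp := h.par hn hm
  refine atyp_finite ?_ ?_ ?_ ?_
  · intro i hi
    refine t1_z hp h hP i hi ?_ (hF.f1 i hi)
    by_cases h01 : Sim A B (i 0) (i 1)
    · refine Or.inr (Or.inl fun h02 => ?_)
      rcases hs _ _ _ _ (hi.ne (by decide : (0 : Fin 3) ≠ 1)) (hi.ne (by decide : (0 : Fin 3) ≠ 2))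
        h01 h02 with ⟨-, h3⟩ | ⟨h3, -⟩
      · exact absurd (hi h3) (by decide)
      · exact absurd (hi h3) (by decide)
    · exact Or.inl h01
  · intro i hi
    refine t2_z hp h hP i hi ?_ (hF.f2 i hi)
    by_cases h01 : Sim A B (i 0) (i 1)
    · refine Or.inr fun h23 => ?_
      rcases hs _ _ _ _ (hi.ne (by decide : (0 : Fin 4) ≠ 1)) (hi.ne (by decide : (2 : Fin 4) ≠ 3))
        h01 h23 with ⟨h3, -⟩ | ⟨h3, -⟩
      · exact absurd (hi h3) (by decide)
      · exact absurd (hi h3) (by decide)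
    · exact Or.inl h01
  · intro i hi
    exact t3_z hp h hC i hi (hF.f3 i hi)
  · intro i hi
    exact t4_z hp h hC halg i (hF.f4 i hi)

/-- **Theorem Z** -/
theorem main_z (h : Rat0 A B) (hn : 0 < n) (hs : OneSim A B) (hP : PairAll) (hC : CMAll)
    (halg : ∀ x : ℂ, IsCMVal x → IsAlgebraic ℚ x) (hF : NoMod (curve A B) → AllFin (curve A B)) :
    FinAtypical (curve A B) := by
  by_cases hm : NoMod (curve A B)
  · exact crit (curve_irred h.ne) (rat_dim h hn) (atyp_z h hn hs hP hC halg hm (hF hm))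
  · simp only [NoMod] at hm
    push Not at hm
    obtain ⟨a, b, hab, g, hg, hx⟩ := hm
    exact fin_of_mod hab g hg hx

end Pool.Agent.LGO.ZG
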