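import Mathlib
import Pool.Agent.LGO.ZG.Main
import Pool.Agent.LGO.PWG.CountG

/-!
# LGO/ZG: counting and an atlas give `AllFin`

`fin_of_atlas`: `FinAbs Q W` from `CbleG Q` and an atlas of `W` (common poles allowed).  `allFin_of`: `AllFin V` from
atlases of the projections of `V` to two, three and four coordinates.
-/

namespace Pool.Agent.LGO.ZG

open Pool.Agent.LGO.PWG

variable {n : ℕ}

theorem fin_of_atlas {mm : ℕ} {Q : ℝ → (Fin mm → ℂ) → Prop} (hQ : CbleG Q) {W : Set (Fin mm → ℂ)}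
    (hA : HasAtlas W) : FinAbs Q W :=
  fun k₀ _ hW _ hTW C hal hT => fin_absG hQ hA k₀ hW hTW C hal hT

theorem allFin_of {V : Set (Fin n → ℂ)}
    (hA : ∀ {mm : ℕ}, 2 ≤ mm → ∀ i : Fin mm → Fin n, Function.Injective i →
      HasAtlas {y : Fin mm → ℂ | ∃ x ∈ V, y = fun a => x (i a)}) : AllFin V where
  f1 := fun i hi => fin_of_atlas cbleG1 (hA (by norm_num) i hi)
  f2 := fun i hi => fin_of_atlas cbleG2 (hA (by norm_num) i hi)
  f3 := fun i hi => fin_of_atlas cbleG3 (hA (by norm_num) i hi)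
  f4 := fun i hi => fin_of_atlas cbleG4 (hA (by norm_num) i hi)

end Pool.Agent.LGO.ZG
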