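import Mathlib
import Pool.Agent.LGO.ZG.Defs
import Pool.Agent.LGO.SG.Deg
import Pool.Agent.LGO.H.BdC

/-!
# LGO/ZG: the input `CMAll` and the algebraicity of the singular moduli
-/

namespace Pool.Agent.LGO.ZG

open UpperHalfPlane Pool.Agent.Hhelper14.ZP Pool.Agent.Hhelper14.ZPL Pool.Agent.LGO

theorem cmAll : CMAll := by
  obtain ⟨C, hC, h⟩ := SG.cm_use
  refine ⟨C, fun K _ x hx hcm => ?_⟩
  obtain ⟨h1, h2⟩ := h K x hx hcm
  exact bd_of_aut hx h1 (by positivity) fun s => (h2 s).1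

theorem cm_alg {x : ℂ} (h : IsCMVal x) : IsAlgebraic ℚ x := by
  obtain ⟨τ, hτ, rfl⟩ := h
  obtain ⟨a, b, c, hf⟩ := CK.exists_form hτ
  have h1 : IsIntegral ℚ (jInv τ) := hf.integral.tower_top
  exact h1.isAlgebraic

end Pool.Agent.LGO.ZG
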