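import Mathlib
import Pool.Agent.LGO.ZG.Defs
import Pool.Agent.LGO.PA.Main

/-!
# LGO/ZG: the input `PairAll`
-/

namespace Pool.Agent.LGO.ZG

open Polynomial Pool.Agent.Hhelper14.ZP Pool.Agent.Hhelper14.ZPL Pool.Agent.LGO Pool.Agent.LGO.U

theorem pairAll : PairAll := by
  intro Aa Ba Ab Bb ca cb hd hb h
  obtain ⟨C, -, h1⟩ := PA.PA_main ca cb hd hb h
  refine ⟨C, ∅, Set.finite_empty, ?_⟩
  intro K _ u v t _ hu hv ht _ hn hi b1 b2 b3 b4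
  obtain ⟨h2, -, -, h3⟩ := h1 K u v t hu hv ht b2 b1 b4 b3 hn hi
  exact ⟨h2, h3⟩

theorem pairAll' : ZF.PairAll := by
  intro Aa Ba Ab Bb ca cb hd h hb
  exact pairAll Aa Ba Ab Bb ca cb hd hb (Or.inl h)

end Pool.Agent.LGO.ZG
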