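import Mathlib

/-!
# Rational curves in `ℂⁿ`
-/

namespace Pool.Agent.LGO.ZG

open Polynomial

/-- The points `(A_i(t) / B_i(t))_i` of `ℂⁿ`, where `t` is a complex number which is not a zero of any `B_i`. -/
def ratPoints {n : ℕ} (A B : Fin n → ℂ[X]) : Set (Fin n → ℂ) :=
  {x | ∃ t : ℂ, ∀ i, (B i).eval t ≠ 0 ∧ x i = (A i).eval t / (B i).eval t}

/-- The rational curve in `ℂⁿ` parametrised by `t ↦ (A_i(t) / B_i(t))_i`: the Zariski closure of the set of
the points `(A_i(t) / B_i(t))_i`. -/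
def ratCurve {n : ℕ} (A B : Fin n → ℂ[X]) : Set (Fin n → ℂ) :=
  MvPolynomial.zeroLocus ℂ (MvPolynomial.vanishingIdeal ℂ (ratPoints A B))

/-- All coefficients of the polynomials are algebraic numbers. -/
def AlgCoeffs {n : ℕ} (A : Fin n → ℂ[X]) : Prop := ∀ i k, IsAlgebraic ℚ ((A i).coeff k)

end Pool.Agent.LGO.ZG
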