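import Mathlib
import Pool.Agent.LGO.ZG.CDefs
import Pool.Agent.LGO.ZG.Main

/-!
# LGO/ZG: polynomials over `ℂ` with algebraic coefficients
-/

namespace Pool.Agent.LGO.ZG

open Polynomial UpperHalfPlane Pool.Agent.Hhelper14.ZP Pool.Agent.Hhelper14.ZPL Pool.Agent.LGO
  Pool.Agent.LGO.U Pool.Agent.LGO.ZF Pool.Agent.ZPE

variable {n : ℕ}

private theorem cpx_lift {P : ℂ[X]} (h : ∀ k, IsAlgebraic ℚ (P.coeff k)) :
    ∃ P' : Polynomial Qb, P'.map (algebraMap Qb ℂ) = P := by
  have h1 : P ∈ Polynomial.lifts (algebraMap Qb ℂ) := by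
    rw [Polynomial.lifts_iff_coeff_lifts]
    intro k
    exact ⟨⟨P.coeff k, (mem_algebraicClosure_iff).mpr (h k)⟩, rfl⟩
  exact (Polynomial.mem_lifts P).mp h1

private theorem cpx_eval (P : Polynomial Qb) (t : ℂ) :
    (P.map (algebraMap Qb ℂ)).eval t = aeval t P := by
  rw [eval_map, aeval_def]

private theorem cpx_root {P : Polynomial Qb} (hP : P ≠ 0) {z : ℂ} (hz : (P.map (algebraMap Qb ℂ)).eval z = 0) :
    ∃ w : Qb, (w : ℂ) = z := by
  rw [cpx_eval] at hz
  have h1 : IsAlgebraic Qb z := ⟨P, hP, hz⟩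
  have h2 : IsAlgebraic ℚ z := by
    have : Algebra.IsAlgebraic ℚ Qb := algebraicClosure.isAlgebraic ℚ ℂ
    exact h1.restrictScalars ℚ
  exact ⟨⟨z, (mem_algebraicClosure_iff).mpr h2⟩, rfl⟩

private theorem cpx_eval_coe (P : Polynomial Qb) (w : Qb) :
    (P.map (algebraMap Qb ℂ)).eval (w : ℂ) = ((P.eval w : Qb) : ℂ) := by
  have h := Polynomial.eval_map_algebraMap (B := ℂ) P (w : ℂ)
  rw [h]
  exact Polynomial.aeval_algebraMap_apply_eq_algebraMap_eval w P

/-- the reduction to polynomials over the field of algebraic numbers -/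
theorem cpx_of {A B : Fin n → ℂ[X]} (hA : AlgCoeffs A) (hB : AlgCoeffs B) (hB0 : ∀ i, B i ≠ 0)
    (hcop : ∀ i, IsCoprime (A i) (B i)) (hc : ∀ i, 0 < max (A i).natDegree (B i).natDegree) :
    ∃ A' B' : Fin n → Polynomial Qb, Rat0 A' B' ∧ ratCurve A B = curve A' B' ∧
      ∀ a b, Sim A' B' a b →
        max (A a).natDegree (B a).natDegree = max (A b).natDegree (B b).natDegree ∧
        (∀ z : ℂ, (B a).eval z = 0 ↔ (B b).eval z = 0) ∧
        ((B a).natDegree < (A a).natDegree ↔ (B b).natDegree < (A b).natDegree) := by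
  choose A' hA' using fun i => cpx_lift (hA i)
  choose B' hB' using fun i => cpx_lift (hB i)
  have hinj : Function.Injective (algebraMap Qb ℂ) := (algebraMap Qb ℂ).injective
  have hdA : ∀ i, (A i).natDegree = (A' i).natDegree := fun i => by
    rw [← hA' i, natDegree_map_eq_of_injective hinj]
  have hdB : ∀ i, (B i).natDegree = (B' i).natDegree := fun i => by
    rw [← hB' i, natDegree_map_eq_of_injective hinj]
  have hne : ∀ i, B' i ≠ 0 := fun i h0 => hB0 i (by rw [← hB' i, h0, Polynomial.map_zero])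
  refine ⟨A', B', ⟨hne, fun i => ?_, fun i => ?_⟩, ?_, ?_⟩
  · have h := hcop i
    rw [← hA' i, ← hB' i, Polynomial.isCoprime_map] at h
    exact h
  · rw [← hdA i, ← hdB i]
    exact hc i
  · have himg : ratPoints A B = img A' B' := by
      ext x
      constructor
      · rintro ⟨t, ht⟩
        refine ⟨t, fun i => ?_⟩
        have h := ht i
        rw [← hA' i, ← hB' i, cpx_eval, cpx_eval] at h
        exact h
      · rintro ⟨t, ht⟩
        refine ⟨t, fun i => ?_⟩
        have h := ht i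
        rw [← hA' i, ← hB' i, cpx_eval, cpx_eval]
        exact h
    rw [ratCurve, curve, himg]
  · rintro a b ⟨h1, h2, h3⟩
    refine ⟨?_, fun z => ?_, ?_⟩
    · rw [hdA a, hdA b, hdB a, hdB b]
      exact h1
    · constructor
      · intro hz
        rw [← hB' a] at hz
        obtain ⟨w, rfl⟩ := cpx_root (hne a) hz
        rw [cpx_eval_coe] at hz
        rw [← hB' b, cpx_eval_coe]
        have h4 : (B' a).eval w = 0 := by exact_mod_cast hz
        rw [(h2 w).mp h4]
        rfl
      · intro hz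
        rw [← hB' b] at hz
        obtain ⟨w, rfl⟩ := cpx_root (hne b) hz
        rw [cpx_eval_coe] at hz
        rw [← hB' a, cpx_eval_coe]
        have h4 : (B' b).eval w = 0 := by exact_mod_cast hz
        rw [(h2 w).mpr h4]
        rfl
    · rw [hdA a, hdA b, hdB a, hdB b]
      exact h3

end Pool.Agent.LGO.ZG
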