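import Mathlib
import Pool.Agent.LGO.ZG.Main
import Pool.Agent.LGO.ZG.InP
import Pool.Agent.LGO.ZG.InC
import Pool.Agent.LGO.AXG.GenR

/-!
# LGO/ZG: Theorem Z
-/

namespace Pool.Agent.LGO.ZG

open Polynomial Pool.Agent.Hhelper14.ZP Pool.Agent.Hhelper14.ZPL Pool.Agent.LGO
  Pool.Agent.LGO.ZF Pool.Agent.ZPE

variable {n : ℕ} {A B : Fin n → Polynomial Qb}

/-- **Theorem Z** -/
theorem main_rat (h : Rat0 A B) (hn : 0 < n) (hs : OneSim A B) : FinAtypical (curve A B) :=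
  main_z h hn hs pairAll cmAll (fun _ hx => cm_alg hx) fun hm => AXG.allFin h hm

end Pool.Agent.LGO.ZG
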